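import Pool.Agent.H92.OD.Targets

/-!
# MP_70ba79_ag, board ode_modules: row TAY (Taylor expansion)
-/

set_option autoImplicit false

namespace Pool.Agent.H68.OD

open MvPolynomial Filter Pool.Agent.H92.OD

/-- the substitution `X 1 ↦ X 1 + T 0`, `X 2 ↦ X 2 + T 1` -/
noncomputable def psi (k : Type) [Field k] :
    MvPolynomial (Fin 3) k →ₐ[k] MvPolynomial (Fin 2) (MvPolynomial (Fin 3) k) :=
  aeval ![C (X 0), C (X 1) + X 0, C (X 2) + X 1]

section

variable {k : Type} [Field k]

theorem psi_X0 : psi k (X 0) = C (X 0) := by simp [psi]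

theorem psi_X1 : psi k (X 1) = C (X 1) + X 0 := by simp [psi]

theorem psi_X2 : psi k (X 2) = C (X 2) + X 1 := by simp [psi]

theorem psi_C (a : k) : psi k (C a) = C (C a) := by
  rw [← algebraMap_eq, AlgHom.commutes]
  rfl

theorem coeff_zero_psi (P : MvPolynomial (Fin 3) k) : coeff 0 (psi k P) = P := by
  induction P using MvPolynomial.induction_on with
  | C a => rw [psi_C]; simp
  | add p q hp hq => rw [map_add, coeff_add, hp, hq]
  | mul_X p i hp =>
    rw [map_mul]
    have h0 : ∀ A : MvPolynomial (Fin 2) (MvPolynomial (Fin 3) k), ∀ b, ∀ j : Fin 2,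
        coeff 0 (A * (C b + X j)) = coeff 0 A * b := by
      intro A b j
      rw [mul_add, coeff_add, mul_comm A (C b), coeff_C_mul, coeff_mul_X', if_neg (by simp),
        add_zero, mul_comm]
    fin_cases i
    · show coeff 0 (psi k p * psi k (X 0)) = p * X 0
      rw [psi_X0, mul_comm, coeff_C_mul, hp, mul_comm]
    · show coeff 0 (psi k p * psi k (X 1)) = p * X 1
      rw [psi_X1, h0, hp]
    · show coeff 0 (psi k p * psi k (X 2)) = p * X 2
      rw [psi_X2, h0, hp]

theorem coeff_single_mul (A : MvPolynomial (Fin 2) (MvPolynomial (Fin 3) k))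
    (b : MvPolynomial (Fin 3) k) (i j : Fin 2) :
    coeff (Finsupp.single i 1) (A * (C b + X j)) =
      coeff (Finsupp.single i 1) A * b + if i = j then coeff 0 A else 0 := by
  rw [mul_add, coeff_add, mul_comm A (C b), coeff_C_mul, coeff_mul_X', mul_comm b]
  congr 1
  by_cases hij : i = j
  · subst hij
    rw [if_pos rfl, if_pos (by simp), tsub_self]
  · rw [if_neg hij, if_neg]
    rw [Finsupp.mem_support_iff, not_not, Finsupp.single_apply, if_neg hij]

theorem coeff_single0_psi (P : MvPolynomial (Fin 3) k) :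
    coeff (Finsupp.single 0 1) (psi k P) = pderiv 1 P := by
  induction P using MvPolynomial.induction_on with
  | C a =>
    rw [psi_C, coeff_C, if_neg, pderiv_C]
    intro h
    have := DFunLike.congr_fun h 0
    simp at this
  | add p q hp hq => rw [map_add, coeff_add, hp, hq, map_add]
  | mul_X p i hp =>
    rw [map_mul, Derivation.leibniz, smul_eq_mul, smul_eq_mul]
    fin_cases i
    · show coeff _ (psi k p * psi k (X 0)) = p * pderiv 1 (X 0) + X 0 * pderiv 1 p
      rw [psi_X0, mul_comm, coeff_C_mul, hp, pderiv_X_of_ne (by decide), mul_zero, zero_add]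
    · show coeff _ (psi k p * psi k (X 1)) = p * pderiv 1 (X 1) + X 1 * pderiv 1 p
      rw [psi_X1, coeff_single_mul, if_pos rfl, hp, coeff_zero_psi, pderiv_X_self, mul_one,
        mul_comm, add_comm]
    · show coeff _ (psi k p * psi k (X 2)) = p * pderiv 1 (X 2) + X 2 * pderiv 1 p
      rw [psi_X2, coeff_single_mul, if_neg (by decide), hp, pderiv_X_of_ne (by decide), mul_zero,
        zero_add, add_zero, mul_comm]

theorem coeff_single1_psi (P : MvPolynomial (Fin 3) k) :
    coeff (Finsupp.single 1 1) (psi k P) = pderiv 2 P := by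
  induction P using MvPolynomial.induction_on with
  | C a =>
    rw [psi_C, coeff_C, if_neg, pderiv_C]
    intro h
    have := DFunLike.congr_fun h 1
    simp at this
  | add p q hp hq => rw [map_add, coeff_add, hp, hq, map_add]
  | mul_X p i hp =>
    rw [map_mul, Derivation.leibniz, smul_eq_mul, smul_eq_mul]
    fin_cases i
    · show coeff _ (psi k p * psi k (X 0)) = p * pderiv 2 (X 0) + X 0 * pderiv 2 p
      rw [psi_X0, mul_comm, coeff_C_mul, hp, pderiv_X_of_ne (by decide), mul_zero, zero_add]
    · show coeff _ (psi k p * psi k (X 1)) = p * pderiv 2 (X 1) + X 1 * pderiv 2 p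
      rw [psi_X1, coeff_single_mul, if_neg (by decide), hp, pderiv_X_of_ne (by decide), mul_zero,
        zero_add, add_zero, mul_comm]
    · show coeff _ (psi k p * psi k (X 2)) = p * pderiv 2 (X 2) + X 2 * pderiv 2 p
      rw [psi_X2, coeff_single_mul, if_pos rfl, hp, coeff_zero_psi, pderiv_X_self, mul_one,
        mul_comm, add_comm]

theorem coeff_pow_mul_pow {S : Type} [CommRing S] (b d : S) (p q : ℕ) (m : Fin 2 →₀ ℕ) :
    coeff m ((C b + X 0) ^ p * (C d + X 1) ^ q : MvPolynomial (Fin 2) S) =
      ((p.choose (m 0) : S) * b ^ (p - m 0)) * ((q.choose (m 1) : S) * d ^ (q - m 1)) := by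
  classical
  have h1 : ((C b + X 0) ^ p * (C d + X 1) ^ q : MvPolynomial (Fin 2) S) =
      ∑ i ∈ Finset.range (p + 1), ∑ j ∈ Finset.range (q + 1),
        monomial (Finsupp.single 0 i + Finsupp.single 1 j)
          (((p.choose i : S) * b ^ (p - i)) * ((q.choose j : S) * d ^ (q - j))) := by
    rw [add_comm (C b), add_comm (C d), add_pow, add_pow, Finset.sum_mul_sum]
    refine Finset.sum_congr rfl fun i _ => Finset.sum_congr rfl fun j _ => ?_
    have h2 : (monomial (Finsupp.single 0 i + Finsupp.single 1 j)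
          (((p.choose i : S) * b ^ (p - i)) * ((q.choose j : S) * d ^ (q - j))) :
          MvPolynomial (Fin 2) S) = C (((p.choose i : S) * b ^ (p - i)) *
            ((q.choose j : S) * d ^ (q - j))) * (X 0 ^ i * X 1 ^ j) := by
      rw [X_pow_eq_monomial, X_pow_eq_monomial, monomial_mul, C_mul_monomial, mul_one, mul_one]
    rw [h2]
    simp only [map_mul, map_pow, map_natCast]
    ring
  rw [h1, coeff_sum]
  simp only [coeff_sum, coeff_monomial]
  have h3 : ∀ i j : ℕ, (Finsupp.single (0 : Fin 2) i + Finsupp.single 1 j = m) ↔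
      (i = m 0 ∧ j = m 1) := by
    intro i j
    constructor
    · rintro rfl
      simp
    · rintro ⟨rfl, rfl⟩
      ext x
      fin_cases x <;> simp
  simp only [h3]
  by_cases hp : m 0 ≤ p
  · by_cases hq : m 1 ≤ q
    · rw [Finset.sum_eq_single (m 0), Finset.sum_eq_single (m 1), if_pos ⟨rfl, rfl⟩]
      · intro j _ hj
        rw [if_neg (fun h => hj h.2)]
      · intro h
        exact absurd (Finset.mem_range.2 (by omega)) h
      · intro i _ hi
        exact Finset.sum_eq_zero fun j _ => if_neg (fun h => hi h.1)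
      · intro h
        exact absurd (Finset.mem_range.2 (by omega)) h
    · have hc : q.choose (m 1) = 0 := Nat.choose_eq_zero_of_lt (not_le.1 hq)
      rw [hc, Nat.cast_zero, zero_mul, mul_zero]
      refine Finset.sum_eq_zero fun i _ => Finset.sum_eq_zero fun j hj => if_neg fun h => ?_
      have := Finset.mem_range.1 hj
      omega
  · have hc : p.choose (m 0) = 0 := Nat.choose_eq_zero_of_lt (not_le.1 hp)
    rw [hc, Nat.cast_zero, zero_mul, zero_mul]
    refine Finset.sum_eq_zero fun i hi => Finset.sum_eq_zero fun j _ => if_neg fun h => ?_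
    have := Finset.mem_range.1 hi
    omega

theorem coeff_psi_monomial (n : Fin 3 →₀ ℕ) (a : k) (m : Fin 2 →₀ ℕ) :
    coeff m (psi k (monomial n a)) = C a * X 0 ^ n 0 *
      ((((n 1).choose (m 0) : ℕ) : MvPolynomial (Fin 3) k) * X 1 ^ (n 1 - m 0) *
        ((((n 2).choose (m 1) : ℕ) : MvPolynomial (Fin 3) k) * X 2 ^ (n 2 - m 1))) := by
  have h1 : psi k (monomial n a) = C (C a * X 0 ^ n 0) *
      ((C (X 1) + X 0) ^ n 1 * (C (X 2) + X 1) ^ n 2) := by
    have h2 : (monomial n a : MvPolynomial (Fin 3) k) = C a * (X 0 ^ n 0 * X 1 ^ n 1 * X 2 ^ n 2) := by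
      rw [monomial_eq, Finsupp.prod_fintype _ _ (fun i => pow_zero _), Fin.prod_univ_three]
    rw [h2, map_mul, map_mul, map_mul, map_pow, map_pow, map_pow, psi_C, psi_X0, psi_X1, psi_X2,
      C_mul, C_pow]
    ring
  rw [h1, coeff_C_mul, coeff_pow_mul_pow]

theorem eval_map_psi {L : Type} [CommRing L] [Algebra k L] (v : Fin 3 → L) (w : Fin 2 → L)
    (P : MvPolynomial (Fin 3) k) :
    eval w (MvPolynomial.map (aeval v : MvPolynomial (Fin 3) k →ₐ[k] L).toRingHom (psi k P)) =
      aeval ![v 0, v 1 + w 0, v 2 + w 1] P := by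
  have hφX : ∀ i : Fin 3, (aeval v : MvPolynomial (Fin 3) k →ₐ[k] L).toRingHom (X i) = v i :=
    fun i => aeval_X _ i
  induction P using MvPolynomial.induction_on with
  | C a =>
    rw [psi_C, map_C, eval_C, algHom_C]
    exact algHom_C _ a
  | add p q hp hq => rw [map_add, map_add, map_add, hp, hq, map_add]
  | mul_X p i hp =>
    rw [map_mul, map_mul, map_mul, hp, map_mul, aeval_X]
    congr 1
    fin_cases i
    · show eval w (MvPolynomial.map _ (psi k (X 0))) = v 0
      rw [psi_X0, map_C, eval_C, hφX]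
    · show eval w (MvPolynomial.map _ (psi k (X 1))) = v 1 + w 0
      rw [psi_X1, map_add, map_add, map_C, eval_C, hφX, map_X, eval_X]
    · show eval w (MvPolynomial.map _ (psi k (X 2))) = v 2 + w 1
      rw [psi_X2, map_add, map_add, map_C, eval_C, hφX, map_X, eval_X]

end

theorem pf_TAY : T_TAY := by
  classical
  intro k _ _ Q hQ
  refine ⟨(psi k Q).support, fun m => coeff m (psi k Q), fun m hm => notMem_support_iff.1 hm,
    coeff_zero_psi Q, coeff_single0_psi Q, coeff_single1_psi Q, ?_, ?_⟩
  · -- nonvanishing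
    have hne : Q.support.Nonempty := by
      rw [Finset.nonempty_iff_ne_empty]
      intro h
      exact hQ (support_eq_empty.1 h)
    obtain ⟨n1, hn1, hmax1⟩ := Q.support.exists_max_image (fun n => n 1) hne
    have hne2 : (Q.support.filter fun n => n 1 = n1 1).Nonempty :=
      ⟨n1, Finset.mem_filter.2 ⟨hn1, rfl⟩⟩
    obtain ⟨n2, hn2, hmax2⟩ := (Q.support.filter fun n => n 1 = n1 1).exists_max_image
      (fun n => n 2) hne2
    obtain ⟨hn2s, hn21⟩ := Finset.mem_filter.1 hn2
    set m : Fin 2 →₀ ℕ := Finsupp.single 0 (n2 1) + Finsupp.single 1 (n2 2) with hm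
    have hm0 : m 0 = n2 1 := by simp [hm]
    have hm1 : m 1 = n2 2 := by simp [hm]
    have hc : coeff m (psi k Q) =
        ∑ n ∈ Q.support.filter (fun n => n 1 = n2 1 ∧ n 2 = n2 2), C (coeff n Q) * X 0 ^ n 0 := by
      conv_lhs => rw [Q.as_sum, map_sum, coeff_sum]
      rw [Finset.sum_filter]
      refine Finset.sum_congr rfl fun n hn => ?_
      rw [coeff_psi_monomial, hm0, hm1]
      have hle1 : n 1 ≤ n2 1 := by rw [hn21]; exact hmax1 n hn
      by_cases h1 : n 1 = n2 1
      · have hle2 : n 2 ≤ n2 2 := hmax2 n (Finset.mem_filter.2 ⟨hn, by rw [h1, hn21]⟩)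
        by_cases h2 : n 2 = n2 2
        · rw [if_pos ⟨h1, h2⟩, h1, h2]
          simp
        · rw [if_neg (fun h => h2 h.2),
            Nat.choose_eq_zero_of_lt (lt_of_le_of_ne hle2 h2)]
          simp
      · rw [if_neg (fun h => h1 h.1), Nat.choose_eq_zero_of_lt (lt_of_le_of_ne hle1 h1)]
        simp
    have hev : ∀ y : HS k, ev (coeff m (psi k Q)) y ≠ 0 := by
      intro y h0
      have h1 : ev (coeff m (psi k Q)) y =
          ∑ n ∈ Q.support.filter (fun n => n 1 = n2 1 ∧ n 2 = n2 2),
            sg ((n 0 : ℕ) : ℚ) (coeff n Q) := by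
        unfold ev
        rw [hc, map_sum]
        refine Finset.sum_congr rfl fun n _ => ?_
        rw [map_mul, map_pow, aeval_X, algHom_C]
        have h2 : (![uu k, y, DF y] : Fin 3 → HS k) 0 = uu k := rfl
        rw [h2, uu_pow, algebraMap_HS, sg_mul_sg, zero_add, mul_one]
        rfl
      have h3 := congrArg (fun z => cf z ((n2 0 : ℕ) : ℚ)) (h1.symm.trans h0)
      simp only [cf_sum, cf_sg, cf_zero] at h3
      rw [Finset.sum_eq_single n2] at h3
      · rw [if_pos rfl] at h3
        exact (mem_support_iff.1 hn2s) h3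
      · intro n hn hne'
        rw [if_neg]
        intro h4
        apply hne'
        obtain ⟨_, h5, h6⟩ := Finset.mem_filter.1 hn
        have h7 : n2 0 = n 0 := by exact_mod_cast h4
        ext i
        fin_cases i
        · exact h7.symm
        · exact h5
        · exact h6
      · intro h4
        exact absurd (Finset.mem_filter.2 ⟨hn2s, rfl, rfl⟩) h4
    refine ⟨m, ?_, hev⟩
    rw [mem_support_iff]
    intro h0
    apply hev 0
    rw [h0]
    unfold ev
    exact map_zero _
  · intro y
    refine ⟨MvPolynomial.map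
      (aeval ![uu k, y, DF y] : MvPolynomial (Fin 3) k →ₐ[k] HS k).toRingHom (psi k Q),
      fun m => ?_, fun t => ?_⟩
    · rw [coeff_map]
      rfl
    · rw [eval_map_psi]
      unfold ev
      rw [DF_add]
      rfl

end Pool.Agent.H68.OD
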